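import Pool.Agent.MP_99a865_pr.CV.Z4
import Pool.Agent.MP_99a865_pr.FV.X3a
import Pool.Agent.MP_99a865_pr.FV.X3b
import Pool.Agent.MP_99a865_pr.ST.Fin3

/-!
# Busy-period trees: normalisations and limit laws of height, width and total height

`u_k` are the interarrival times (law `μ`), `v_k` the service times (law `ν`), both positive with mean one,
and `N` is the number of services of the initial busy period; all laws are given `N = n`, and `n → ∞` along
the `n` with `P(N = n) > 0`. `S_j = (v_1 - u_1) + ⋯ + (v_j - u_j)` is, for `j < N`, the waiting time of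
customer `j + 1`.

(A) If `S_n/a_n` tends weakly to an integrable law `ζ` which is not a point mass, then `ζ` is strictly stable
of some index `α ∈ (1,2]`, and `a_n/n` times the height, the width over `a_n` and `a_n/n²` times the total
height have nondegenerate limit laws which depend only on `ζ`: those of `∫₀¹ dt/e(t)`, `sup e` and
`∫₀¹ (1-t) dt/e(t)`, where `e` is the normalised excursion of the Lévy process `Y` with `Y_1 ~ ζ`: a positive
right-continuous process on `(0,1)`, whose finite-dimensional distributions are the limits, as `x → 0+`, of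
those of `Y` started at `x` given that it leaves `(0,∞)` at time one. The process `(S_{⌊tn⌋}/a_n)` tends to
`e` in the sense of finite-dimensional distributions.

(B) For ALL laws: the square-root scalings work if and only if both variances are finite.
-/

open MeasureTheory ProbabilityTheory Filter Topology

namespace Pool.Agent.Results.MP_99a865_pr.LimitLaws

open Pool.Agent.BPT

/-- given `N = n`, and as `n → ∞` along the `n` with `P(N = n) > 0`, `X n` converges weakly to the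
probability law `L` -/
def Converges (c : Bool) (μ ν : Measure ℝ) (X : ℕ → (ℕ → ℝ) × (ℕ → ℝ) → ℝ) (L : Measure ℝ) : Prop :=
  IsProbabilityMeasure L ∧ ∀ f : BoundedContinuousFunction ℝ ℝ,
    Tendsto (fun n : ℕ => ∫ p, f (X n p) ∂(cond (queueLaw μ ν) (busyEvent c n)))
      (atTop ⊓ 𝓟 {n | queueLaw μ ν (busyEvent c n) ≠ 0}) (𝓝 (∫ x, f x ∂L))

/-- the same for some law `L` which is not a point mass -/
def HasLimit (c : Bool) (μ ν : Measure ℝ) (X : ℕ → (ℕ → ℝ) × (ℕ → ℝ) → ℝ) : Prop :=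
  ∃ L : Measure ℝ, Converges c μ ν X L ∧ ∀ x, L ≠ Measure.dirac x

/-- both laws have a finite second moment -/
def FiniteVar (μ ν : Measure ℝ) : Prop :=
  Integrable (fun x : ℝ => x ^ 2) μ ∧ Integrable (fun x : ℝ => x ^ 2) ν

/-- the law of `∫₀¹ dt/e(t)` -/
noncomputable def lawH {Ω : Type} [MeasurableSpace Ω] (Q : Measure Ω) (e : ℝ → Ω → ℝ) : Measure ℝ :=
  Q.map fun ω => ∫ t in Set.Ioo (0 : ℝ) 1, 1 / e t ω

/-- the law of `sup_{0<t<1} e(t)` -/
noncomputable def lawW {Ω : Type} [MeasurableSpace Ω] (Q : Measure Ω) (e : ℝ → Ω → ℝ) : Measure ℝ :=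
  Q.map fun ω => ⨆ t : Set.Ioo (0 : ℝ) 1, e t ω

/-- the law of `∫₀¹ (1-t) dt/e(t)` -/
noncomputable def lawT {Ω : Type} [MeasurableSpace Ω] (Q : Measure Ω) (e : ℝ → Ω → ℝ) : Measure ℝ :=
  Q.map fun ω => ∫ t in Set.Ioo (0 : ℝ) 1, (1 - t) / e t ω

theorem result : ∃ (W : Measure ℝ) (P : Measure ℝ → Measure (ℚ → ℝ)) (e : ℝ → (ℚ → ℝ) → ℝ),
    IsProbabilityMeasure W ∧
    -- `W` is the law of the area of the Brownian excursion, `excMax` that of its maximum
    (∀ (Ω : Type) (_ : MeasurableSpace Ω) (Q : Measure Ω) (b : ℝ → Ω → ℝ),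
      IsBrownianExcursion Q b →
        Q.map (fun ω => ∫ t in (0 : ℝ)..1, b t ω) = W ∧
        ∀ x > 0, Q.real {ω | ∀ t ∈ Set.Icc (0 : ℝ) 1, b t ω ≤ x} = excMax x) ∧
    (∀ f : BoundedContinuousFunction ℝ ℝ,
      Tendsto (fun m : ℕ => (∑ s ∈ dyckPaths m, f ((pathArea s : ℝ) / ((2 * m) * √(2 * m)))) /
        (dyckPaths m).card) atTop (𝓝 (∫ x, f x ∂W))) ∧
    -- the laws of (A) for the standard normal law
    ((∀ x > 0, (lawH (P (gaussianReal 0 1)) e).real (Set.Iic (2 * x)) = excMax x ∧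
        (lawW (P (gaussianReal 0 1)) e).real (Set.Iic x) = excMax x) ∧
      lawT (P (gaussianReal 0 1)) e = W.map fun x => 2 * x) ∧
    ∀ (c : Bool) (μ ν : Measure ℝ), IsProbabilityMeasure μ → IsProbabilityMeasure ν →
      μ (Set.Iic 0) = 0 → ν (Set.Iic 0) = 0 → ∫ x, x ∂μ = 1 → ∫ x, x ∂ν = 1 →
      ¬ (μ = Measure.dirac 1 ∧ ν = Measure.dirac 1) →
      (∃ᶠ n : ℕ in atTop, queueLaw μ ν (busyEvent c n) ≠ 0) ∧
      -- (A) domains of attraction
      (∀ (ζ : Measure ℝ) (a : ℕ → ℝ), IsProbabilityMeasure ζ → Integrable (fun x : ℝ => x) ζ →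
        (∀ x, ζ ≠ Measure.dirac x) → Attracted μ ν ζ a →
        -- `ζ` is stable, and `e` is, under `P ζ`, its normalised excursion
        (∃ α : ℝ, 1 < α ∧ α ≤ 2 ∧ StrictlyStable α ζ ∧ ExcLimits α ζ ∧ IsExcursion α ζ (P ζ) e) ∧
        (∀ᵐ ω ∂(P ζ), (∀ t, 0 < t → t < 1 → ∃ l > (0 : ℝ), Tendsto (fun s => e s ω) (𝓝[<] t) (𝓝 l)) ∧
          IntegrableOn (fun t => 1 / e t ω) (Set.Ioo 0 1) ∧
          BddAbove (Set.range fun t : Set.Ioo (0 : ℝ) 1 => e t ω)) ∧
        -- the normalised waiting times tend to `e`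
        (∀ (K : ℕ) (τ : ℕ → ℝ), Times K τ → ∀ f : ℕ → ℝ → ℝ, (∃ M > (0 : ℝ), ∀ j, BL M (f j)) →
          Tendsto (fun n : ℕ => ∫ p, ∏ j ∈ Finset.range K,
              f j ((∑ i ∈ Finset.range ⌊τ j * n⌋₊, (p.2 i - p.1 i)) / a n)
              ∂(cond (queueLaw μ ν) (busyEvent c n)))
            (atTop ⊓ 𝓟 {n | queueLaw μ ν (busyEvent c n) ≠ 0})
            (𝓝 (∫ ω, ∏ j ∈ Finset.range K, f j (e (τ j) ω) ∂(P ζ)))) ∧
        -- the limit laws
        Converges c μ ν (fun n p => a n / n * height c p.1 p.2 n) (lawH (P ζ) e) ∧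
        Converges c μ ν (fun n p => width c p.1 p.2 n / a n) (lawW (P ζ) e) ∧
        Converges c μ ν (fun n p => a n / n ^ 2 * totalHeight c p.1 p.2 n) (lawT (P ζ) e) ∧
        ∀ x, lawH (P ζ) e ≠ Measure.dirac x ∧ lawW (P ζ) e ≠ Measure.dirac x ∧
          lawT (P ζ) e ≠ Measure.dirac x) ∧
      -- (B) the criterion
      ((∃ b : ℕ → ℝ, HasLimit c μ ν fun n p => height c p.1 p.2 n / √n - b n) ↔ FiniteVar μ ν) ∧
      (HasLimit c μ ν (fun n p => width c p.1 p.2 n / √n) ↔ FiniteVar μ ν) ∧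
      ((∃ b : ℕ → ℝ, HasLimit c μ ν fun n p => totalHeight c p.1 p.2 n / (n * √n) - b n) ↔
        FiniteVar μ ν) ∧
      -- the limit laws
      (FiniteVar μ ν → ∃ σ > (0 : ℝ), σ ^ 2 = ∫ x, (x - 1) ^ 2 ∂μ + ∫ x, (x - 1) ^ 2 ∂ν ∧
        (∀ x > 0, Tendsto (fun n : ℕ => (cond (queueLaw μ ν) (busyEvent c n)).real
            {p | σ * height c p.1 p.2 n / (2 * √n) ≤ x})
          (atTop ⊓ 𝓟 {n | queueLaw μ ν (busyEvent c n) ≠ 0}) (𝓝 (excMax x))) ∧
        (∀ x > 0, Tendsto (fun n : ℕ => (cond (queueLaw μ ν) (busyEvent c n)).real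
            {p | width c p.1 p.2 n / (σ * √n) ≤ x})
          (atTop ⊓ 𝓟 {n | queueLaw μ ν (busyEvent c n) ≠ 0}) (𝓝 (excMax x))) ∧
        Converges c μ ν (fun n p => σ * totalHeight c p.1 p.2 n / (2 * (n * √n))) W) ∧
      -- infinite variance: along a subsequence the tree is much lower and wider
      (¬ FiniteVar μ ν → (∀ L, ¬ Converges c μ ν (fun n p => width c p.1 p.2 n / √n) L) ∧
        ∀ ε > (0 : ℝ), ∀ (K : ℝ) (n₀ : ℕ), ∃ n ≥ n₀, queueLaw μ ν (busyEvent c n) ≠ 0 ∧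
          (cond (queueLaw μ ν) (busyEvent c n)).real {p | ε * √n ≤ height c p.1 p.2 n} < ε ∧
          (cond (queueLaw μ ν) (busyEvent c n)).real
            {p | ε * (n * √n) ≤ totalHeight c p.1 p.2 n} < ε ∧
          (cond (queueLaw μ ν) (busyEvent c n)).real {p | width c p.1 p.2 n ≤ K * √n} < ε) := by
  obtain ⟨W, hWp, _, hW⟩ := area_law
  obtain ⟨P, e, hS⟩ := stable_exc
  obtain ⟨L, hLp, hLn, hL⟩ := law_of_FF FF_monotone FF_continuousOn
  have hγ : ∀ x, gaussianReal 0 1 ≠ Measure.dirac x := fun x hx => by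
    have h1 := (nullSingletonClass_gaussianReal (μ := 0) (v := 1) one_ne_zero).measure_singleton x
    rw [hx] at h1
    simp at h1
  have hγi : Integrable (fun x : ℝ => x) (gaussianReal 0 1) :=
    (memLp_id_gaussianReal (μ := 0) (v := 1) 1).integrable (by norm_num)
  refine ⟨W, P, e, hWp, ?_, fun f => dyck_limit hW f, ?_, ?_⟩
  · intro Ω _ Q b hb
    exact ⟨exc_area Q b hb W hWp hW, fun x hx => exc_max Q b hb hx⟩
  · refine stable_gauss (LH := fun ζ => lawH (P ζ) e) (LW := fun ζ => lawW (P ζ) e)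
      (LT := fun ζ => lawT (P ζ) e) hW fun c μ ν a h0 ha => ?_
    obtain ⟨-, -, -, h1, h2, h3, -⟩ := hS _ c μ ν a inferInstance hγi hγ h0 ha
    exact ⟨h1, h2, h3⟩
  · intro c μ ν h1 h2 h3 h4 h5 h6 hne
    have h0 : Hyp0 μ ν := ⟨h1, h2, h3, h4, h5, h6⟩
    have hfwd : FiniteVar μ ν → ∃ σ, Hyp μ ν σ := fun hv => exists_hyp h0 hne hv.1 hv.2
    refine ⟨?_, ?_, ⟨?_, ?_⟩, ⟨?_, ?_⟩, ⟨?_, ?_⟩, ?_, ?_⟩
    · have : (lq c μ ν).NeBot := by
        by_cases hv : FiniteVar μ ν
        · obtain ⟨σ, h⟩ := hfwd hv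
          exact neBot_fin h c
        · exact neBot_inf h0 hv c
      exact frequently_mem_iff_neBot.2 this
    · intro ζ a hζ hi hnd ha
      obtain ⟨-, ⟨α, g1, g2, g3, g4, g5, g6⟩, g7, g8, g9, g10, g11⟩ := hS ζ c μ ν a hζ hi hnd h0 ha
      exact ⟨⟨α, g1, g2, g3, g4, g5⟩, g7, g6, g8, g9, g10, g11⟩
    · rintro ⟨b, L', hL', hn⟩
      by_contra hv
      obtain ⟨x, hx⟩ := conv_height_centre h0 hv c b L' hL'
      exact hn x hx
    · intro hv
      obtain ⟨σ, h⟩ := hfwd hv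
      refine ⟨fun _ => 0, _, ?_, nondeg_scale hLn (a := 2 / σ) (div_pos two_pos h.pos).ne'⟩
      simp only [sub_zero]
      exact fwd_height hLp hL h c
    · rintro ⟨L', hL', hn⟩
      by_contra hv
      exact conv_width h0 hv c L' hL'
    · intro hv
      obtain ⟨σ, h⟩ := hfwd hv
      exact ⟨_, fwd_width hLp hL h c, nondeg_scale hLn (a := σ) h.pos.ne'⟩
    · rintro ⟨b, L', hL', hn⟩
      by_contra hv
      obtain ⟨x, hx⟩ := conv_total_centre h0 hv c b L' hL'
      exact hn x hx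
    · intro hv
      obtain ⟨σ, h⟩ := hfwd hv
      refine ⟨fun _ => 0, _, ?_, nondeg_scale (W_nondeg hW) (a := 2 / σ)
        (div_pos two_pos h.pos).ne'⟩
      simp only [sub_zero]
      exact fwd_total hW h c
    · intro hv
      obtain ⟨σ, h⟩ := hfwd hv
      exact ⟨σ, h.pos, h.var, fun x hx => final_height h c hx, fun x hx => final_width h c hx,
        hWp, fun f => final_total hW h c f⟩
    · intro hv
      exact ⟨fun L' => conv_width h0 hv c L', fun ε hε K n₀ => all_small h0 hv c ε hε K n₀⟩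

end Pool.Agent.Results.MP_99a865_pr.LimitLaws
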