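import Pool.Agent.H97.QCore

/-!
# Busy-period trees: in general there is no normalisation

For suitable laws of the interarrival and service times (positive, mean one, no ties almost surely)
neither the height, nor the width, nor the total height of the tree of the initial busy period,
conditioned to have `n` services, has a nondegenerate limit law under any affine normalisation.
-/

open MeasureTheory ProbabilityTheory Filter Topology

namespace Pool.Agent.Results.MP_99a865_pr.NoNormalisation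

open Pool.Agent.H97.Queue Pool.Agent.H97.QWalk

variable {D : ℕ → ℕ}

lemma limit_aux (h : Lv D) (Z : (ℕ → ℝ) → (ℕ → ℝ) → ℕ → ℕ)
    (hmeas : ∀ n, Measurable (fun ω : (ℕ → ℝ) × (ℕ → ℝ) => Z ω.1 ω.2 n))
    (hyp : ∀ η : ℝ, 0 < η → ∃ η' : ℝ, 0 < η' ∧ ∀ (M : ℝ) (n₀ : ℕ), ∃ n, n₀ ≤ n ∧
      queueLaw (mu D) (Measure.dirac 1) (busyEvent n) ≠ 0 ∧
      ∃ s t : ℝ, 0 < s ∧ M * s ≤ t ∧
        1 - η ≤ (cond (queueLaw (mu D) (Measure.dirac 1)) (busyEvent n)).real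
          {ω | (Z ω.1 ω.2 n : ℝ) ≤ s} ∧
        η' ≤ (cond (queueLaw (mu D) (Measure.dirac 1)) (busyEvent n)).real
          {ω | t ≤ (Z ω.1 ω.2 n : ℝ)}) :
    ¬ HasNondegenerateLimit (mu D) (Measure.dirac 1) Z := by
  rintro ⟨a, b, L, ha, hL, hnd, hlim⟩
  have hfin : IsProbabilityMeasure (queueLaw (mu D) (Measure.dirac 1)) := by
    rw [queueLaw_eq h.one]
    have := letterLaw_prob (pp_nonneg h.one) (hasSum_pp h.one)
    have h6 : IsProbabilityMeasure (seqLaw (pp D)) := by unfold seqLaw; infer_instance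
    exact Measure.isProbabilityMeasure_map measurable_Phi.aemeasurable
  obtain ⟨y, hy⟩ := no_limit (fun n => cond (queueLaw (mu D) (Measure.dirac 1)) (busyEvent n))
    {n | queueLaw (mu D) (Measure.dirac 1) (busyEvent n) ≠ 0}
    (fun (ω : (ℕ → ℝ) × (ℕ → ℝ)) n => (Z ω.1 ω.2 n : ℝ))
    (fun n hn => cond_isProbabilityMeasure hn)
    (fun n => (measurable_of_countable (fun k : ℕ => (k : ℝ))).comp (hmeas n))
    (fun ω n => Nat.cast_nonneg _) hyp a b ha L hlim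
  exact hnd y hy

lemma pow_choice (η : ℝ) : ∃ k : ℕ, 8 / η ≤ (2 : ℝ) ^ k := by
  obtain ⟨k, hk⟩ := pow_unbounded_of_one_lt (8 / η) (show (1 : ℝ) < 2 by norm_num)
  exact ⟨k, hk.le⟩

lemma eps_bound {η : ℝ} {j : ℕ} (hη : 0 < η) (hj : 2 / η ≤ j) :
    1 - η / 2 ≤ 1 - 1 / ((j : ℝ) + 1) := by
  have h1 : 1 / ((j : ℝ) + 1) ≤ η / 2 := by
    rw [div_le_div_iff₀ (by positivity) (by norm_num)]
    rw [div_le_iff₀ hη] at hj
    nlinarith
  linarith

lemma eps_half {j : ℕ} (hj : 1 ≤ j) : 1 / 2 ≤ 1 - 1 / ((j : ℝ) + 1) := by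
  have h0 : (1 : ℝ) ≤ j := by exact_mod_cast hj
  have h1 : 1 / ((j : ℝ) + 1) ≤ 1 / 2 := by
    rw [div_le_div_iff₀ (by positivity) (by norm_num)]
    linarith
  linarith

/-- the case where scenario A has the small scale -/
lemma typeI (h : Lv D) (Z : (ℕ → ℝ) → (ℕ → ℝ) → ℕ → ℕ)
    (hmeas : ∀ n, Measurable (fun ω : (ℕ → ℝ) × (ℕ → ℝ) => Z ω.1 ω.2 n)) (s t : ℕ → ℕ → ℝ)
    (hs : ∀ j n, 0 < s j n)
    (hst : ∀ j n, Scale (gam j) j ((n + 2 : ℕ) : ℝ) → (j : ℝ) * s j n ≤ t j n)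
    (hA : ∀ j n τ, Scale (gam j) j ((n + 2 : ℕ) : ℝ) → Hit (hist (fun k => xs D (τ k)) (n + 2)) →
      Bdd (((n + 2 : ℕ) : ℝ) ^ ((3 : ℝ) / 4)) (hist (fun k => xs D (τ k)) (n + 2)) →
      (Z (Phi D τ).1 (Phi D τ).2 (n + 2) : ℝ) ≤ s j n)
    (hB : ∀ j n τ, Scale (gam j) j ((n + 2 : ℕ) : ℝ) → Surv (hist (fun k => xs D (τ k)) (n + 1)) →
      Lin (((n + 2 : ℕ) : ℝ) ^ ((1 : ℝ) / 8)) (gam j) (hist (fun k => xs D (τ k)) (n + 1)) →
      t j n ≤ (Z (Phi D τ).1 (Phi D τ).2 (n + 2) : ℝ)) :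
    ¬ HasNondegenerateLimit (mu D) (Measure.dirac 1) Z := by
  apply limit_aux h Z hmeas
  intro η hη
  obtain ⟨k, hk⟩ := pow_choice η
  set x : ℝ := 2 ^ k with hx
  have hx0 : 0 < x := by positivity
  refine ⟨1 / 2 * (1 / (1 + 2 * x)), by positivity, ?_⟩
  intro M n₀
  obtain ⟨j, hj, hodds⟩ := odds_large k (n₀ + ⌈M⌉₊ + ⌈2 / η⌉₊ + 1)
  have hjM : M ≤ j := (Nat.le_ceil M).trans (by exact_mod_cast (by omega : ⌈M⌉₊ ≤ j))
  have hjη : 2 / η ≤ j := (Nat.le_ceil _).trans (by exact_mod_cast (by omega : ⌈2 / η⌉₊ ≤ j))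
  obtain ⟨n, hn, hsc, hne, h1, h2⟩ := core h (j := j) (by omega)
  rw [hodds] at h1 h2
  refine ⟨n + 2, by omega, hne, s j n, t j n, hs j n, ?_, ?_, ?_⟩
  · exact (mul_le_mul_of_nonneg_right hjM (hs j n).le).trans (hst j n hsc)
  · refine le_trans ?_ (h1 {ω | (Z ω.1 ω.2 (n + 2) : ℝ) ≤ s j n}
      (measurableSet_le ((measurable_of_countable (fun k : ℕ => (k : ℝ))).comp (hmeas (n + 2)))
        measurable_const) (fun τ h3 h4 => hA j n τ hsc h3 h4))
    have h3 := eps_bound hη hjη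
    have h4 : 1 - η / 4 ≤ x / (x + 2) := by
      rw [le_div_iff₀ (by positivity)]
      rw [div_le_iff₀ hη] at hk
      nlinarith
    have h5 := eps_half (j := j) (by omega)
    by_cases h6 : 1 - η / 4 ≤ 0
    · have : 0 ≤ (1 - 1 / ((j : ℝ) + 1)) * (x / (x + 2)) :=
        mul_nonneg (by linarith) (by positivity)
      linarith
    · push Not at h6
      calc 1 - η ≤ (1 - η / 2) * (1 - η / 4) := by nlinarith
        _ ≤ (1 - 1 / ((j : ℝ) + 1)) * (x / (x + 2)) := by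
            refine (mul_le_mul_of_nonneg_right h3 h6.le).trans ?_
            exact mul_le_mul_of_nonneg_left h4 (by linarith)
  · refine le_trans ?_ (h2 {ω | t j n ≤ (Z ω.1 ω.2 (n + 2) : ℝ)}
      (measurableSet_le measurable_const
        ((measurable_of_countable (fun k : ℕ => (k : ℝ))).comp (hmeas (n + 2))))
        (fun τ h3 h4 => hB j n τ hsc h3 h4))
    exact mul_le_mul_of_nonneg_right (eps_half (by omega)) (by positivity)

/-- the case where scenario B has the small scale -/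
lemma typeII (h : Lv D) (Z : (ℕ → ℝ) → (ℕ → ℝ) → ℕ → ℕ)
    (hmeas : ∀ n, Measurable (fun ω : (ℕ → ℝ) × (ℕ → ℝ) => Z ω.1 ω.2 n)) (s t : ℕ → ℕ → ℝ)
    (hs : ∀ j n, 0 < s j n)
    (hst : ∀ j n, Scale (gam j) j ((n + 2 : ℕ) : ℝ) → (j : ℝ) * s j n ≤ t j n)
    (hA : ∀ j n τ, Scale (gam j) j ((n + 2 : ℕ) : ℝ) → Hit (hist (fun k => xs D (τ k)) (n + 2)) →
      Bdd (((n + 2 : ℕ) : ℝ) ^ ((3 : ℝ) / 4)) (hist (fun k => xs D (τ k)) (n + 2)) →
      t j n ≤ (Z (Phi D τ).1 (Phi D τ).2 (n + 2) : ℝ))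
    (hB : ∀ j n τ, Scale (gam j) j ((n + 2 : ℕ) : ℝ) → Surv (hist (fun k => xs D (τ k)) (n + 1)) →
      Lin (((n + 2 : ℕ) : ℝ) ^ ((1 : ℝ) / 8)) (gam j) (hist (fun k => xs D (τ k)) (n + 1)) →
      (Z (Phi D τ).1 (Phi D τ).2 (n + 2) : ℝ) ≤ s j n) :
    ¬ HasNondegenerateLimit (mu D) (Measure.dirac 1) Z := by
  apply limit_aux h Z hmeas
  intro η hη
  obtain ⟨k, hk⟩ := pow_choice η
  set x : ℝ := 1 / 2 ^ k with hx
  have hx0 : 0 < x := by positivity
  have hxη : x ≤ η / 8 := by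
    rw [hx, div_le_div_iff₀ (by positivity) (by norm_num)]
    rw [div_le_iff₀ hη] at hk
    linarith
  refine ⟨1 / 2 * (x / (x + 2)), by positivity, ?_⟩
  intro M n₀
  obtain ⟨j, hj, hodds⟩ := odds_small k (n₀ + ⌈M⌉₊ + ⌈2 / η⌉₊ + 1)
  have hjM : M ≤ j := (Nat.le_ceil M).trans (by exact_mod_cast (by omega : ⌈M⌉₊ ≤ j))
  have hjη : 2 / η ≤ j := (Nat.le_ceil _).trans (by exact_mod_cast (by omega : ⌈2 / η⌉₊ ≤ j))
  obtain ⟨n, hn, hsc, hne, h1, h2⟩ := core h (j := j) (by omega)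
  rw [hodds] at h1 h2
  refine ⟨n + 2, by omega, hne, s j n, t j n, hs j n, ?_, ?_, ?_⟩
  · exact (mul_le_mul_of_nonneg_right hjM (hs j n).le).trans (hst j n hsc)
  · refine le_trans ?_ (h2 {ω | (Z ω.1 ω.2 (n + 2) : ℝ) ≤ s j n}
      (measurableSet_le ((measurable_of_countable (fun k : ℕ => (k : ℝ))).comp (hmeas (n + 2)))
        measurable_const) (fun τ h3 h4 => hB j n τ hsc h3 h4))
    have h3 := eps_bound hη hjη
    have h4 : 1 - η / 4 ≤ 1 / (1 + 2 * x) := by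
      rw [le_div_iff₀ (by positivity)]
      nlinarith
    have h5 := eps_half (j := j) (by omega)
    by_cases h6 : 1 - η / 4 ≤ 0
    · have : 0 ≤ (1 - 1 / ((j : ℝ) + 1)) * (1 / (1 + 2 * x)) :=
        mul_nonneg (by linarith) (by positivity)
      linarith
    · push Not at h6
      calc 1 - η ≤ (1 - η / 2) * (1 - η / 4) := by nlinarith
        _ ≤ (1 - 1 / ((j : ℝ) + 1)) * (1 / (1 + 2 * x)) := by
            refine (mul_le_mul_of_nonneg_right h3 h6.le).trans ?_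
            exact mul_le_mul_of_nonneg_left h4 (by linarith)
  · refine le_trans ?_ (h1 {ω | t j n ≤ (Z ω.1 ω.2 (n + 2) : ℝ)}
      (measurableSet_le measurable_const
        ((measurable_of_countable (fun k : ℕ => (k : ℝ))).comp (hmeas (n + 2))))
        (fun τ h3 h4 => hA j n τ hsc h3 h4))
    exact mul_le_mul_of_nonneg_right (eps_half (by omega)) (by positivity)

lemma rpow_facts (n : ℕ) : 0 ≤ ((n + 2 : ℕ) : ℝ) ^ ((3 : ℝ) / 4) ∧
    1 ≤ ((n + 2 : ℕ) : ℝ) ^ ((1 : ℝ) / 8) ∧ 0 ≤ Real.log ((n + 2 : ℕ) : ℝ) := by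
  have h1 : (1 : ℝ) ≤ ((n + 2 : ℕ) : ℝ) := by push_cast; linarith [Nat.cast_nonneg (α := ℝ) n]
  exact ⟨Real.rpow_nonneg (by linarith) _, Real.one_le_rpow h1 (by norm_num), Real.log_nonneg h1⟩

lemma no_width (h : Lv D) : ¬ HasNondegenerateLimit (mu D) (Measure.dirac 1) width := by
  refine typeI h width (fun n => ?_)
    (fun _ n => ((n + 2 : ℕ) : ℝ) ^ ((3 : ℝ) / 4) + 2) (fun j n => gam j * ((n : ℝ) + 1) / 2)
    (fun j n => ?_) (fun j n hsc => ?_) (fun j n τ _ h1 h2 => ?_) (fun j n τ hsc h1 h2 => ?_)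
  · exact measurable_tree n (fun G => ⨆ k : ℕ, (Finset.univ.filter fun s : Fin n =>
      G.dist ⟨0, s.pos⟩ s = k).card)
  · have := (rpow_facts n).1
    positivity
  · have h1 := hsc.1
    have : ((n + 2 : ℕ) : ℝ) - 1 = (n : ℝ) + 1 := by push_cast; ring
    rwa [this] at h1
  · exact (detA h.one (rpow_facts n).1 h1 h2).1
  · have h3 : ((n + 2 : ℕ) : ℝ) - 1 = (n : ℝ) + 1 := by push_cast; ring
    have h4 := hsc.2.2.2
    rw [h3] at h4
    exact (detB h.one (rpow_facts n).2.1 (gam_pos j) (gam_lt_one j) h4 h1 h2).2.1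

lemma no_height (h : Lv D) : ¬ HasNondegenerateLimit (mu D) (Measure.dirac 1) height := by
  refine typeII h height (fun n => ?_)
    (fun j n => ((n + 2 : ℕ) : ℝ) ^ ((1 : ℝ) / 8) + 2 + Real.log ((n + 2 : ℕ) : ℝ) / gam j)
    (fun j n => ((n + 2 : ℕ) : ℝ) / (((n + 2 : ℕ) : ℝ) ^ ((3 : ℝ) / 4) + 2) - 1)
    (fun j n => ?_) (fun j n hsc => hsc.2.1) (fun j n τ _ h1 h2 => ?_)
    (fun j n τ hsc h1 h2 => ?_)
  · exact measurable_tree n (fun G => Finset.univ.sup (fun s : Fin n => G.dist ⟨0, s.pos⟩ s))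
  · have h1 := (rpow_facts n).2
    have h2 := gam_pos j
    have h3 : 0 ≤ Real.log ((n + 2 : ℕ) : ℝ) / gam j := div_nonneg h1.2 h2.le
    linarith [h1.1]
  · exact (detA h.one (rpow_facts n).1 h1 h2).2.1
  · have h3 : ((n + 2 : ℕ) : ℝ) - 1 = (n : ℝ) + 1 := by push_cast; ring
    have h4 := hsc.2.2.2
    rw [h3] at h4
    exact (detB h.one (rpow_facts n).2.1 (gam_pos j) (gam_lt_one j) h4 h1 h2).1

lemma no_totalHeight (h : Lv D) : ¬ HasNondegenerateLimit (mu D) (Measure.dirac 1) totalHeight := by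
  refine typeII h totalHeight (fun n => ?_)
    (fun j n => ((n + 2 : ℕ) : ℝ) *
      (((n + 2 : ℕ) : ℝ) ^ ((1 : ℝ) / 8) + 2 + Real.log ((n + 2 : ℕ) : ℝ) / gam j))
    (fun j n => ((n + 2 : ℕ) : ℝ) / 2 *
      (((n + 2 : ℕ) : ℝ) / (2 * (((n + 2 : ℕ) : ℝ) ^ ((3 : ℝ) / 4) + 2)) - 1))
    (fun j n => ?_) (fun j n hsc => hsc.2.2.1) (fun j n τ _ h1 h2 => ?_)
    (fun j n τ hsc h1 h2 => ?_)
  · exact measurable_tree n (fun G => ∑ s : Fin n, G.dist ⟨0, s.pos⟩ s)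
  · have h1 := (rpow_facts n).2
    have h2 := gam_pos j
    have h3 : 0 ≤ Real.log ((n + 2 : ℕ) : ℝ) / gam j := div_nonneg h1.2 h2.le
    have h4 : (0 : ℝ) < ((n + 2 : ℕ) : ℝ) := by positivity
    exact mul_pos h4 (by linarith [h1.1])
  · exact (detA h.one (rpow_facts n).1 h1 h2).2.2
  · have h3 : ((n + 2 : ℕ) : ℝ) - 1 = (n : ℝ) + 1 := by push_cast; ring
    have h4 := hsc.2.2.2
    rw [h3] at h4
    exact (detB h.one (rpow_facts n).2.1 (gam_pos j) (gam_lt_one j) h4 h1 h2).2.2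

lemma no_ties (h : Lv D) : ∀ᵐ ω ∂(queueLaw (mu D) (Measure.dirac 1)), ∀ n : ℕ,
    BusyLength ω.1 ω.2 n → ∀ r s : ℕ, r < n → 1 ≤ s → s ≤ n →
      arrival ω.1 s ≠ depart ω.1 ω.2 r := by
  rw [queueLaw_eq h.one]
  have hms : MeasurableSet {ω : (ℕ → ℝ) × (ℕ → ℝ) | ∀ n : ℕ,
    BusyLength ω.1 ω.2 n → ∀ r s : ℕ, r < n → 1 ≤ s → s ≤ n →
      arrival ω.1 s ≠ depart ω.1 ω.2 r} := by
    have h1 : {ω : (ℕ → ℝ) × (ℕ → ℝ) | ∀ n : ℕ,
        BusyLength ω.1 ω.2 n → ∀ r s : ℕ, r < n → 1 ≤ s → s ≤ n →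
          arrival ω.1 s ≠ depart ω.1 ω.2 r} = ⋂ n : ℕ, ((busyEvent n)ᶜ ∪ ⋂ r : ℕ, ⋂ s : ℕ,
        {ω | r < n → 1 ≤ s → s ≤ n → arrival ω.1 s ≠ depart ω.1 ω.2 r}) := by
      ext ω
      simp only [Set.mem_iInter, Set.mem_union, Set.mem_compl_iff, busyEvent, Set.mem_ofPred_eq,
        imp_iff_not_or]
    rw [h1]
    refine MeasurableSet.iInter (fun n => (measurableSet_busy n).compl.union
      (MeasurableSet.iInter (fun r => MeasurableSet.iInter (fun s => ?_))))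
    by_cases h2 : r < n
    · by_cases h3 : 1 ≤ s
      · by_cases h4 : s ≤ n
        · simp only [h2, h3, h4, true_imp_iff]
          exact (measurableSet_eq_fun (measurable_arrival s) (measurable_depart r)).compl
        · simp [h4]
      · simp [h3]
    · simp [h2]
  rw [ae_map_iff measurable_Phi.aemeasurable hms]
  refine Eventually.of_forall (fun τ n hb r s hr hs hsn => ?_)
  change arrival (fun k => vals D (τ k)) s ≠ depart (fun k => vals D (τ k)) (fun _ => 1) r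
  have hb' : BusyLength (fun k => vals D (τ k)) (fun _ => 1) n := hb
  rw [busy_iff] at hb'
  obtain ⟨_, h2, h3⟩ := hb'
  rw [depart_one h3 r hr]
  rcases Nat.lt_or_ge 1 n with h4 | h4
  · have h0 : τ 0 = 0 := first_letter h.one (by simpa using h3 1 le_rfl h4)
    obtain ⟨k, rfl⟩ : ∃ k, s = k + 1 := ⟨s - 1, by omega⟩
    have h5 := Irrational.ne_nat (arrival_irrational (D := D) h0 k) (r + 1)
    intro h6
    apply h5
    rw [h6]; push_cast; ring
  · have h5 : n = 1 := by omega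
    subst h5
    have h6 : s = 1 := by omega
    have h7 : r = 0 := by omega
    subst h6 h7
    intro h8
    rw [h8] at h2
    norm_num at h2

/-- There are laws `μ` of the interarrival times and `ν` of the service times on the positive reals,
both with mean one and (almost surely) without coincidences of arrivals and service completions in
the initial busy period, for which the height, the width and the total height of the tree of the
initial busy period, conditioned on `N = n`, have no nondegenerate limit law under any affine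
normalisation. -/
theorem result : ∃ μ ν : Measure ℝ, IsProbabilityMeasure μ ∧ IsProbabilityMeasure ν ∧
    μ (Set.Iic 0) = 0 ∧ ν (Set.Iic 0) = 0 ∧
    Integrable (fun x : ℝ => x) μ ∧ Integrable (fun x : ℝ => x) ν ∧
    ∫ x, x ∂μ = 1 ∧ ∫ x, x ∂ν = 1 ∧
    (∀ᵐ ω ∂(queueLaw μ ν), ∀ n : ℕ, BusyLength ω.1 ω.2 n → ∀ r s : ℕ, r < n → 1 ≤ s → s ≤ n →
      arrival ω.1 s ≠ depart ω.1 ω.2 r) ∧
    ¬ HasNondegenerateLimit μ ν height ∧ ¬ HasNondegenerateLimit μ ν width ∧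
    ¬ HasNondegenerateLimit μ ν totalHeight := by
  obtain ⟨D, hD1, hD2⟩ := exists_levels odds_pos
  have h : Lv D := ⟨hD1, hD2⟩
  refine ⟨mu D, Measure.dirac 1, mu_prob h.one, inferInstance, mu_pos, ?_, integrable_mu h.one, ?_,
    integral_mu h.one, ?_, no_ties h, no_height h, no_width h, no_totalHeight h⟩
  · rw [Measure.dirac_apply' _ measurableSet_Iic]
    simp
  · exact integrable_dirac (by simp)
  · simp

end Pool.Agent.Results.MP_99a865_pr.NoNormalisation
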